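import Mathlib

set_option autoImplicit false

open MeasureTheory Set Filter Topology Metric
open scoped RealInnerProductSpace ENNReal

namespace Pool.Agent.H318R3.St

section algebra

variable {E : Type*} [NormedAddCommGroup E] [InnerProductSpace ℝ E]

/-- The reflection in the hyperplane orthogonal to `u`. -/
noncomputable def refl (u : E) : E ≃ₗᵢ[ℝ] E := (ℝ ∙ u)ᗮ.reflection

lemma refl_apply {u : E} (hu : ‖u‖ = 1) (y : E) : refl u y = y - (2 * ⟪y, u⟫) • u := by
  unfold refl
  rw [Submodule.reflection_orthogonal_apply, Submodule.reflection_singleton_apply]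
  rw [real_inner_comm, hu]
  simp only [neg_sub]
  norm_num
  rw [mul_smul, two_smul, two_smul]

/-- The foot of the perpendicular from `y` to the hyperplane orthogonal to `u`. -/
noncomputable def foot (u y : E) : E := y - ⟪y, u⟫ • u

lemma inner_self_one {u : E} (hu : ‖u‖ = 1) : ⟪u, u⟫ = 1 := by
  rw [real_inner_self_eq_norm_sq, hu]; norm_num

lemma foot_inner {u : E} (hu : ‖u‖ = 1) (y : E) : ⟪foot u y, u⟫ = 0 := by
  unfold foot
  rw [inner_sub_left, inner_smul_left, inner_self_one hu]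
  simp

lemma foot_add (u y : E) : foot u y + ⟪y, u⟫ • u = y := by
  unfold foot; abel

/-- uniqueness of the decomposition -/
lemma decomp_unique {u : E} (hu : ‖u‖ = 1) {x x' : E} {t t' : ℝ} (hx : ⟪x, u⟫ = 0)
    (hx' : ⟪x', u⟫ = 0) (h : x + t • u = x' + t' • u) : t = t' ∧ x = x' := by
  have h1 : ⟪x + t • u, u⟫ = ⟪x' + t' • u, u⟫ := by rw [h]
  rw [inner_add_left, inner_add_left, inner_smul_left, inner_smul_left, inner_self_one hu, hx,
    hx'] at h1
  simp at h1
  subst h1
  exact ⟨rfl, add_right_cancel h⟩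

lemma refl_line {u : E} (hu : ‖u‖ = 1) {x : E} (hx : ⟪x, u⟫ = 0) (t : ℝ) :
    refl u (x + t • u) = x - t • u := by
  rw [refl_apply hu, inner_add_left, inner_smul_left, inner_self_one hu, hx]
  simp only [conj_trivial, mul_one, zero_add]
  rw [two_mul, add_smul]
  abel

lemma refl_refl (u : E) (y : E) : refl u (refl u y) = y := by
  unfold refl
  exact Submodule.reflection_reflection _ y

end algebra

section sets

variable {E : Type*} [NormedAddCommGroup E] [InnerProductSpace ℝ E]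

/-- The parameters of the chord of `K` through `x` in direction `u`. -/
def chord (u x : E) (K : Set E) : Set ℝ := {s : ℝ | x + s • u ∈ K}

/-- The Steiner symmetral. -/
def sym (u : E) (K : Set E) : Set E :=
  {y : E | ∃ x : E, ∃ t : ℝ, y = x + t • u ∧ ⟪x, u⟫ = 0 ∧ (∃ s : ℝ, x + s • u ∈ K) ∧
    2 * |t| ≤ (volume (chord u x K)).toReal}

lemma chord_isCompact {u : E} (hu : ‖u‖ = 1) (x : E) {K : Set E} (hK : IsCompact K) :
    IsCompact (chord u x K) := by
  have hiso : Isometry (fun s : ℝ => x + s • u) := by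
    refine Isometry.of_dist_eq fun s t => ?_
    rw [dist_add_left, dist_eq_norm, ← sub_smul, norm_smul, hu, mul_one, Real.dist_eq,
      Real.norm_eq_abs]
  exact hiso.isClosedEmbedding.isCompact_preimage hK

lemma chord_convex (u x : E) {K : Set E} (hK : Convex ℝ K) : Convex ℝ (chord u x K) := by
  intro s hs t ht a b ha hb hab
  show x + (a • s + b • t) • u ∈ K
  have e : x + (a • s + b • t) • u = a • (x + s • u) + b • (x + t • u) := by
    have : x = a • x + b • x := by rw [← add_smul, hab, one_smul]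
    nth_rw 1 [this]
    simp only [smul_eq_mul, smul_add, smul_smul, add_smul]
    abel
  rw [e]
  exact hK hs ht ha hb hab

lemma chord_cases {u : E} (hu : ‖u‖ = 1) (x : E) {K : Set E} (hK : IsCompact K)
    (hc : Convex ℝ K) : chord u x K = ∅ ∨ ∃ a b, a ≤ b ∧ chord u x K = Icc a b := by
  rcases Set.eq_empty_or_nonempty (chord u x K) with h | h
  · exact Or.inl h
  · right
    have hco := chord_isCompact hu x hK
    have hcv := chord_convex u x hc
    have hconn : IsConnected (chord u x K) := ⟨h, hcv.isPreconnected⟩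
    have he := eq_Icc_of_connected_compact hconn hco
    refine ⟨_, _, ?_, he⟩
    rw [he] at h
    exact nonempty_Icc.1 h

lemma mem_sym_line {u : E} (hu : ‖u‖ = 1) {x : E} (hx : ⟪x, u⟫ = 0) (t : ℝ) (K : Set E) :
    x + t • u ∈ sym u K ↔ (chord u x K).Nonempty ∧ 2 * |t| ≤ (volume (chord u x K)).toReal := by
  constructor
  · rintro ⟨x', t', h1, h2, h3, h4⟩
    obtain ⟨rfl, rfl⟩ := decomp_unique hu hx h2 h1
    exact ⟨h3, h4⟩
  · rintro ⟨h1, h2⟩
    exact ⟨x, t, rfl, hx, h1, h2⟩

lemma chord_sym_empty {u : E} (hu : ‖u‖ = 1) {x : E} (hx : ⟪x, u⟫ = 0) {K : Set E}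
    (h : chord u x K = ∅) : chord u x (sym u K) = ∅ := by
  ext t
  simp only [chord, mem_ofPred_eq, mem_empty_iff_false, iff_false]
  rw [mem_sym_line hu hx, h]
  simp

lemma chord_sym_Icc {u : E} (hu : ‖u‖ = 1) {x : E} (hx : ⟪x, u⟫ = 0) {K : Set E} {a b : ℝ}
    (hab : a ≤ b) (h : chord u x K = Icc a b) :
    chord u x (sym u K) = Icc (-((b - a) / 2)) ((b - a) / 2) := by
  ext t
  rw [chord, mem_ofPred_eq, mem_sym_line hu hx, h, Real.volume_Icc,
    ENNReal.toReal_ofReal (by linarith), nonempty_Icc, mem_Icc]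
  constructor
  · rintro ⟨-, h2⟩
    have := abs_le.1 (show |t| ≤ (b - a) / 2 by linarith)
    exact this
  · rintro h2
    have := abs_le.2 h2
    exact ⟨hab, by linarith⟩

lemma chord_refl {u : E} (hu : ‖u‖ = 1) {x : E} (hx : ⟪x, u⟫ = 0) (K : Set E) (t : ℝ) :
    t ∈ chord u x (refl u ⁻¹' K) ↔ -t ∈ chord u x K := by
  show refl u (x + t • u) ∈ K ↔ x + (-t) • u ∈ K
  rw [refl_line hu hx, neg_smul, sub_eq_add_neg]

/-- The Steiner symmetral of a compact convex set as a linear image. -/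
lemma sym_eq_image {u : E} (hu : ‖u‖ = 1) {K : Set E} (hK : IsCompact K) (hc : Convex ℝ K) :
    sym u K = (fun p : E × E => (1 / 2 : ℝ) • (p.1 + refl u p.2)) ''
      {p : E × E | p.1 ∈ K ∧ p.2 ∈ K ∧ p.1 - p.2 = ⟪p.1 - p.2, u⟫ • u} := by
  ext y
  constructor
  · rintro ⟨x, t, rfl, hx, hs, ht⟩
    rcases chord_cases hu x hK hc with h | ⟨a, b, hab, h⟩
    · exfalso
      have : (chord u x K).Nonempty := hs
      rw [h] at this
      simp at this
    · rw [h, Real.volume_Icc, ENNReal.toReal_ofReal (by linarith)] at ht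
      have ht' := abs_le.1 (show |t| ≤ (b - a) / 2 by linarith)
      have m1 : (a + b) / 2 + t ∈ chord u x K := by
        rw [h]; constructor <;> linarith [ht'.1, ht'.2]
      have m2 : (a + b) / 2 - t ∈ chord u x K := by
        rw [h]; constructor <;> linarith [ht'.1, ht'.2]
      refine ⟨(x + ((a + b) / 2 + t) • u, x + ((a + b) / 2 - t) • u), ⟨m1, m2, ?_⟩, ?_⟩
      · simp only
        have e : x + ((a + b) / 2 + t) • u - (x + ((a + b) / 2 - t) • u) = (2 * t) • u := by
          module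
        rw [e, inner_smul_left, inner_self_one hu]
        simp
      · simp only
        rw [refl_line hu hx]
        module
  · rintro ⟨⟨p, q⟩, ⟨hp, hq, hpq⟩, rfl⟩
    simp only at hp hq hpq ⊢
    have hx0 := foot_inner hu p
    have hq' : q = foot u p + ⟪q, u⟫ • u := by
      have h1 : foot u p = foot u q := by
        have h2 : p - q = (⟪p, u⟫ - ⟪q, u⟫) • u := by
          rw [← inner_sub_left]; exact hpq
        unfold foot
        rw [sub_eq_sub_iff_sub_eq_sub, h2, sub_smul]
      rw [h1, foot_add]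
    have hp' : p = foot u p + ⟪p, u⟫ • u := (foot_add u p).symm
    have hcp : ⟪p, u⟫ ∈ chord u (foot u p) K := by
      show foot u p + ⟪p, u⟫ • u ∈ K
      rw [foot_add]; exact hp
    have hcq : ⟪q, u⟫ ∈ chord u (foot u p) K := by
      show foot u p + ⟪q, u⟫ • u ∈ K
      rw [← hq']; exact hq
    refine ⟨foot u p, (⟪p, u⟫ - ⟪q, u⟫) / 2, ?_, hx0, ⟨_, hcp⟩, ?_⟩
    · have e : refl u q = foot u p - ⟪q, u⟫ • u := by
        conv_lhs => rw [hq']
        rw [refl_line hu hx0]
      have h3 : (1 / 2 : ℝ) • (foot u p + ⟪p, u⟫ • u + (foot u p - ⟪q, u⟫ • u)) =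
          foot u p + ((⟪p, u⟫ - ⟪q, u⟫) / 2) • u := by module
      rw [foot_add] at h3
      rw [e]
      exact h3
    · rcases chord_cases hu (foot u p) hK hc with h | ⟨a, b, hab, h⟩
      · rw [h] at hcp; simp at hcp
      · rw [h] at hcp hcq ⊢
        rw [Real.volume_Icc, ENNReal.toReal_ofReal (by linarith)]
        have h5 : |(⟪p, u⟫ - ⟪q, u⟫) / 2| ≤ (b - a) / 2 := by
          rw [abs_le]; constructor <;> linarith [hcp.1, hcp.2, hcq.1, hcq.2]
        linarith

lemma sym_isCompact {u : E} (hu : ‖u‖ = 1) {K : Set E} (hK : IsCompact K) (hc : Convex ℝ K) :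
    IsCompact (sym u K) := by
  rw [sym_eq_image hu hK hc]
  apply IsCompact.image
  · have h1 : IsCompact (K ×ˢ K) := hK.prod hK
    have h2 : {p : E × E | p.1 ∈ K ∧ p.2 ∈ K ∧ p.1 - p.2 = ⟪p.1 - p.2, u⟫ • u} =
        (K ×ˢ K) ∩ {p : E × E | p.1 - p.2 = ⟪p.1 - p.2, u⟫ • u} := by
      ext p; simp [and_assoc]
    rw [h2]
    apply h1.inter_right
    exact isClosed_eq (by fun_prop) (by fun_prop)
  · have := (refl u).continuous
    fun_prop

lemma sym_convex {u : E} (hu : ‖u‖ = 1) {K : Set E} (hK : IsCompact K) (hc : Convex ℝ K) :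
    Convex ℝ (sym u K) := by
  rw [sym_eq_image hu hK hc]
  rintro _ ⟨⟨p, q⟩, ⟨hp, hq, hpq⟩, rfl⟩ _ ⟨⟨p', q'⟩, ⟨hp', hq', hpq'⟩, rfl⟩ a b ha hb hab
  simp only at hp hq hpq hp' hq' hpq'
  refine ⟨(a • p + b • p', a • q + b • q'), ⟨hc hp hp' ha hb hab, hc hq hq' ha hb hab, ?_⟩, ?_⟩
  · simp only
    have e : a • p + b • p' - (a • q + b • q') = a • (p - q) + b • (p' - q') := by module
    rw [e, inner_add_left, inner_smul_left, inner_smul_left]
    conv_lhs => rw [hpq, hpq']
    simp only [conj_trivial]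
    module
  · simp only [map_add, map_smul]
    module

lemma sym_nonempty {u : E} (hu : ‖u‖ = 1) {K : Set E} (hK : IsCompact K) (hc : Convex ℝ K)
    (hne : K.Nonempty) : (sym u K).Nonempty := by
  rw [sym_eq_image hu hK hc]
  obtain ⟨p, hp⟩ := hne
  exact ⟨_, ⟨(p, p), ⟨hp, hp, by simp⟩, rfl⟩⟩

lemma sym_subset_ball {u : E} (hu : ‖u‖ = 1) {K : Set E} (hK : IsCompact K) (hc : Convex ℝ K)
    {R : ℝ} (hR : K ⊆ closedBall 0 R) : sym u K ⊆ closedBall 0 R := by
  rw [sym_eq_image hu hK hc]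
  rintro _ ⟨⟨p, q⟩, ⟨hp, hq, -⟩, rfl⟩
  have h1 := mem_closedBall_zero_iff.1 (hR hp)
  have h2 := mem_closedBall_zero_iff.1 (hR hq)
  rw [mem_closedBall_zero_iff]
  simp only at h1 h2 ⊢
  rw [norm_smul]
  have h3 : ‖p + refl u q‖ ≤ ‖p‖ + ‖q‖ := by
    refine (norm_add_le _ _).trans ?_
    rw [(refl u).norm_map]
  norm_num
  linarith

end sets

end Pool.Agent.H318R3.St
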