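import Pool.Agent.H318R3.St.Line

set_option autoImplicit false

open MeasureTheory Set Filter Topology Metric
open scoped RealInnerProductSpace ENNReal

namespace Pool.Agent.H318R3.St

section metric

variable {E : Type*} [NormedAddCommGroup E] [InnerProductSpace ℝ E] [FiniteDimensional ℝ E]

lemma haus_fin {A B : Set E} (hA : A.Nonempty) (hB : B.Nonempty) (hA' : IsCompact A)
    (hB' : IsCompact B) : hausdorffEDist A B ≠ ⊤ :=
  hausdorffEDist_ne_top_of_nonempty_of_bounded hA hB hA'.isBounded hB'.isBounded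

lemma mem_of_ball {A B : Set E} (hA : A.Nonempty) (hB : B.Nonempty) (hA' : IsCompact A)
    (hB' : IsCompact B) (hcA : Convex ℝ A) {x : E} {r : ℝ} (hr : 0 < r)
    (hball : closedBall x r ⊆ B) (hd : hausdorffDist A B < r) : x ∈ A := by
  by_contra hx
  obtain ⟨y, hyA, hy⟩ := exists_norm_eq_iInf_of_complete_convex hA hA'.isComplete hcA x
  have hy2 := (norm_eq_iInf_iff_real_inner_le_zero hcA hyA).1 hy
  have hxy : x - y ≠ 0 := by
    intro h
    rw [sub_eq_zero] at h
    rw [h] at hx
    exact hx hyA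
  have hn : 0 < ‖x - y‖ := norm_pos_iff.2 hxy
  set v : E := (‖x - y‖)⁻¹ • (x - y) with hv
  have hvn : ‖v‖ = 1 := by
    rw [hv, norm_smul, norm_inv, norm_norm, inv_mul_cancel₀ hn.ne']
  have hp : x + r • v ∈ B := by
    apply hball
    rw [mem_closedBall, dist_eq_norm, add_sub_cancel_left, norm_smul, hvn, mul_one,
      Real.norm_of_nonneg hr.le]
  obtain ⟨z, hz, hzd⟩ := exists_dist_lt_of_hausdorffDist_lt' hp hd (haus_fin hA hB hA' hB')
  have h1 : ⟪x + r • v - z, v⟫ ≤ ‖x + r • v - z‖ * ‖v‖ := real_inner_le_norm _ _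
  rw [hvn, mul_one, ← dist_eq_norm, dist_comm] at h1
  have h2 : ⟪x + r • v - z, v⟫ = ‖x - y‖ + r + ⟪y - z, v⟫ := by
    have e : x + r • v - z = (x - y) + r • v + (y - z) := by abel
    rw [e, inner_add_left, inner_add_left, inner_smul_left, real_inner_self_eq_norm_sq, hvn]
    have : ⟪x - y, v⟫ = ‖x - y‖ := by
      rw [hv, inner_smul_right, real_inner_self_eq_norm_sq]
      field_simp
    rw [this]
    simp
  have h3 : 0 ≤ ⟪y - z, v⟫ := by
    have h4 := hy2 z hz
    have h5 : ⟪y - z, v⟫ = -(‖x - y‖⁻¹ * ⟪x - y, z - y⟫) := by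
      rw [hv, inner_smul_right, real_inner_comm, ← neg_sub z y, inner_neg_right]
      ring
    rw [h5]
    have : ‖x - y‖⁻¹ * ⟪x - y, z - y⟫ ≤ 0 :=
      mul_nonpos_of_nonneg_of_nonpos (by positivity) h4
    linarith
  linarith

lemma eventually_mem_iff {A : ℕ → Set E} {B : Set E} (hA : ∀ k, (A k).Nonempty)
    (hB : B.Nonempty) (hA' : ∀ k, IsCompact (A k)) (hB' : IsCompact B)
    (hcA : ∀ k, Convex ℝ (A k)) (hlim : Tendsto (fun k => hausdorffDist (A k) B) atTop (𝓝 0))
    {x : E} (hx : x ∉ frontier B) : ∀ᶠ k in atTop, (x ∈ A k ↔ x ∈ B) := by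
  by_cases hxB : x ∈ B
  · have hint : x ∈ interior B := by
      by_contra h
      exact hx ⟨subset_closure hxB, h⟩
    obtain ⟨r, hr, hball⟩ := Metric.isOpen_iff.1 isOpen_interior x hint
    have hb2 : closedBall x (r / 2) ⊆ B :=
      (closedBall_subset_ball (by linarith)).trans (hball.trans interior_subset)
    have hev : ∀ᶠ k in atTop, hausdorffDist (A k) B < r / 2 :=
      hlim.eventually_lt_const (by linarith)
    filter_upwards [hev] with k hk
    exact iff_of_true (mem_of_ball (hA k) hB (hA' k) hB' (hcA k) (by linarith) hb2 hk) hxB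
  · have hd : 0 < infDist x B := by
      rw [← hB'.isClosed.notMem_iff_infDist_pos hB]
      exact hxB
    have hev : ∀ᶠ k in atTop, hausdorffDist (A k) B < infDist x B :=
      hlim.eventually_lt_const hd
    filter_upwards [hev] with k hk
    refine iff_of_false (fun hxA => ?_) hxB
    obtain ⟨y, hy, hxy⟩ := exists_dist_lt_of_hausdorffDist_lt hxA hk
      (haus_fin (hA k) hB (hA' k) hB')
    exact absurd (infDist_le_dist_of_mem hy) (not_le.2 hxy)

open TopologicalSpace in
/-- Blaschke selection. -/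
theorem blaschke (K : ℕ → Set E) (R : ℝ) (hcl : ∀ n, IsCompact (K n))
    (hne : ∀ n, (K n).Nonempty) (hc : ∀ n, Convex ℝ (K n)) (hR : ∀ n, K n ⊆ closedBall 0 R) :
    ∃ L : Set E, IsCompact L ∧ L.Nonempty ∧ Convex ℝ L ∧ L ⊆ closedBall 0 R ∧
      ∃ φ : ℕ → ℕ, StrictMono φ ∧
        Tendsto (fun k => hausdorffDist (K (φ k)) L) atTop (𝓝 0) := by
  let X := closedBall (0 : E) R
  have hX : CompactSpace X := isCompact_iff_compactSpace.mp (isCompact_closedBall 0 R)
  let k : ℕ → NonemptyCompacts X := fun n =>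
    ⟨⟨Subtype.val ⁻¹' K n, ((hcl n).isClosed.preimage continuous_subtype_val).isCompact⟩, by
      obtain ⟨x, hx⟩ := hne n
      exact ⟨⟨x, hR n hx⟩, hx⟩⟩
  obtain ⟨k', φ, hφ, hlim⟩ := CompactSpace.tendsto_subseq k
  have himg : ∀ n, Subtype.val '' ((k n : NonemptyCompacts X) : Set X) = K n := by
    intro n
    show Subtype.val '' (Subtype.val ⁻¹' K n) = K n
    rw [Subtype.image_preimage_coe]
    exact inter_eq_right.2 (hR n)
  have hcK' : IsCompact (Subtype.val '' (k' : Set X)) := k'.isCompact.image continuous_subtype_val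
  have hneK' : (Subtype.val '' (k' : Set X)).Nonempty := k'.nonempty.image _
  have hd : Tendsto (fun n => hausdorffDist (K (φ n)) (Subtype.val '' (k' : Set X))) atTop
      (𝓝 0) := by
    have h1 := tendsto_iff_dist_tendsto_zero.1 hlim
    refine h1.congr fun n => ?_
    show hausdorffDist ((k (φ n) : NonemptyCompacts X) : Set X) (k' : Set X) = _
    rw [← himg (φ n), hausdorffDist_image isometry_subtype_coe]
  refine ⟨Subtype.val '' (k' : Set X), hcK', hneK', ?_, ?_, φ, hφ, hd⟩
  · intro x hx y hy a b ha hb hab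
    rw [← hcK'.isClosed.closure_eq, Metric.mem_closure_iff]
    intro ε hε
    obtain ⟨n, hn⟩ := (hd.eventually_lt_const (show (0:ℝ) < ε / 2 by linarith)).exists
    have hf := haus_fin (hne (φ n)) hneK' (hcl (φ n)) hcK'
    obtain ⟨x', hx', hxx⟩ := exists_dist_lt_of_hausdorffDist_lt' hx hn hf
    obtain ⟨y', hy', hyy⟩ := exists_dist_lt_of_hausdorffDist_lt' hy hn hf
    obtain ⟨w, hw, hww⟩ := exists_dist_lt_of_hausdorffDist_lt (hc _ hx' hy' ha hb hab) hn hf
    refine ⟨w, hw, ?_⟩
    have h1 : dist (a • x + b • y) (a • x' + b • y') ≤ ε / 2 := by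
      rw [dist_eq_norm]
      have e : a • x + b • y - (a • x' + b • y') = a • (x - x') + b • (y - y') := by
        rw [smul_sub, smul_sub]; abel
      rw [e]
      refine (norm_add_le _ _).trans ?_
      rw [norm_smul, norm_smul, Real.norm_of_nonneg ha, Real.norm_of_nonneg hb, ← dist_eq_norm,
        ← dist_eq_norm, dist_comm x, dist_comm y]
      nlinarith
    have := dist_triangle (a • x + b • y) (a • x' + b • y') w
    linarith
  · rintro _ ⟨x, -, rfl⟩
    exact x.2

end metric

section meas

variable {E : Type*} [NormedAddCommGroup E] [InnerProductSpace ℝ E] [FiniteDimensional ℝ E]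
  [MeasurableSpace E] [BorelSpace E]

/-- Integrals over Hausdorff convergent convex bodies converge. -/
theorem tendsto_lint {A : ℕ → Set E} {B : Set E} (hA : ∀ k, (A k).Nonempty)
    (hB : B.Nonempty) (hA' : ∀ k, IsCompact (A k)) (hB' : IsCompact B)
    (hcA : ∀ k, Convex ℝ (A k)) (hcB : Convex ℝ B)
    (hlim : Tendsto (fun k => hausdorffDist (A k) B) atTop (𝓝 0))
    {R : ℝ} (hAR : ∀ k, A k ⊆ closedBall 0 R) (g : E → ℝ≥0∞) (hg : Measurable g)
    {C : ℝ≥0∞} (hC : C ≠ ⊤) (hgC : ∀ x ∈ closedBall (0 : E) R, g x ≤ C) :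
    Tendsto (fun k => ∫⁻ x in A k, g x) atTop (𝓝 (∫⁻ x in B, g x)) := by
  simp_rw [← lintegral_indicator (hA' _).measurableSet]
  rw [← lintegral_indicator hB'.measurableSet]
  apply tendsto_lintegral_of_dominated_convergence
    ((closedBall (0 : E) R).indicator (fun _ => C))
  · intro k
    exact hg.indicator (hA' k).measurableSet
  · intro k
    apply Eventually.of_forall
    intro x
    by_cases hx : x ∈ A k
    · rw [indicator_of_mem hx, indicator_of_mem (hAR k hx)]
      exact hgC x (hAR k hx)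
    · rw [indicator_of_notMem hx]
      exact zero_le
  · rw [lintegral_indicator measurableSet_closedBall, setLIntegral_const]
    exact ENNReal.mul_ne_top hC measure_closedBall_lt_top.ne
  · have h0 : ∀ᵐ x ∂(volume : Measure E), x ∉ frontier B := by
      exact measure_eq_zero_iff_ae_notMem.1 (hcB.addHaar_frontier volume)
    filter_upwards [h0] with x hx
    have hev := eventually_mem_iff hA hB hA' hB' hcA hlim hx
    apply tendsto_const_nhds.congr'
    filter_upwards [hev] with k hk
    by_cases hxB : x ∈ B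
    · rw [indicator_of_mem hxB, indicator_of_mem (hk.2 hxB)]
    · rw [indicator_of_notMem hxB, indicator_of_notMem (fun h => hxB (hk.1 h))]

lemma interior_nonempty_of_vol {L : Set E} (hc : Convex ℝ L) (hcl : IsClosed L)
    (hv : volume L ≠ 0) : (interior L).Nonempty := by
  by_contra h
  rw [not_nonempty_iff_eq_empty] at h
  apply hv
  have := hc.addHaar_frontier (volume : Measure E)
  rwa [frontier, h, sdiff_empty, hcl.closure_eq] at this

/-- Convex bodies: almost everywhere inclusion gives inclusion. -/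
lemma subset_of_ae {L M : Set E} (hc : Convex ℝ L) (hcl : IsClosed L) (hM : IsClosed M)
    (hv : volume L ≠ 0) (h : volume (L \ M) = 0) : L ⊆ M := by
  have h1 : interior L ⊆ M := by
    by_contra hcon
    obtain ⟨x, hx, hxM⟩ := not_subset.1 hcon
    have ho : IsOpen (interior L \ M) := isOpen_interior.sdiff hM
    have hpos := ho.measure_pos (volume : Measure E) ⟨x, hx, hxM⟩
    have hle : volume (interior L \ M) ≤ volume (L \ M) :=
      measure_mono (sdiff_subset_sdiff_left interior_subset)
    rw [h] at hle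
    exact absurd hpos (not_lt.2 hle)
  have h2 := hc.closure_interior_eq_closure_of_nonempty_interior
    (interior_nonempty_of_vol hc hcl hv)
  rw [hcl.closure_eq] at h2
  rw [← h2]
  exact closure_minimal h1 hM

end meas

end Pool.Agent.H318R3.St
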