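import Pool.Agent.H318R3.St.Basic

set_option autoImplicit false

open MeasureTheory Set Filter Topology Metric
open scoped RealInnerProductSpace ENNReal

namespace Pool.Agent.H318R3.St

variable {E : Type*} [NormedAddCommGroup E] [InnerProductSpace ℝ E] [FiniteDimensional ℝ E]
  [MeasurableSpace E] [BorelSpace E]

/-- slab of width one -/
def slab (u : E) : Set E := {x : E | ⟪x, u⟫ ∈ Icc (0 : ℝ) 1}

lemma slab_meas (u : E) : MeasurableSet (slab u) := by
  apply measurableSet_Icc.preimage
  fun_prop

lemma slab_time {u : E} (hu : ‖u‖ = 1) (x : E) :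
    ∫⁻ s : ℝ, (slab u).indicator (fun _ => (1 : ℝ≥0∞)) (x - s • u) = 1 := by
  have h : ∀ s : ℝ, (slab u).indicator (fun _ => (1 : ℝ≥0∞)) (x - s • u) =
      (Icc (⟪x, u⟫ - 1) ⟪x, u⟫).indicator (fun _ => (1 : ℝ≥0∞)) s := by
    intro s
    have e : x - s • u ∈ slab u ↔ s ∈ Icc (⟪x, u⟫ - 1) ⟪x, u⟫ := by
      show ⟪x - s • u, u⟫ ∈ Icc (0 : ℝ) 1 ↔ _
      rw [inner_sub_left, inner_smul_left, inner_self_one hu]
      simp only [conj_trivial, mul_one, mem_Icc]
      constructor
      · rintro ⟨h1, h2⟩; constructor <;> linarith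
      · rintro ⟨h1, h2⟩; constructor <;> linarith
    by_cases hs : x - s • u ∈ slab u
    · rw [indicator_of_mem hs, indicator_of_mem (e.1 hs)]
    · rw [indicator_of_notMem hs, indicator_of_notMem (fun h => hs (e.2 h))]
  simp_rw [h]
  rw [lintegral_indicator measurableSet_Icc]
  simp

/-- Integration along lines. -/
theorem lintegral_line {u : E} (hu : ‖u‖ = 1) (g : E → ℝ≥0∞) (hg : Measurable g) :
    ∫⁻ x, g x = ∫⁻ x in slab u, ∫⁻ s : ℝ, g (foot u x + s • u) := by
  have h1 : ∀ x : E, ∫⁻ s : ℝ, g (foot u x + s • u) = ∫⁻ s : ℝ, g (x + s • u) := by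
    intro x
    rw [← lintegral_sub_right_eq_self (fun s : ℝ => g (x + s • u)) ⟪x, u⟫]
    congr 1
    ext s
    congr 1
    unfold foot
    rw [sub_smul]
    abel
  simp_rw [h1]
  rw [← lintegral_indicator (slab_meas u)]
  have h2 : ∀ x : E, (slab u).indicator (fun x => ∫⁻ s : ℝ, g (x + s • u)) x =
      ∫⁻ s : ℝ, (slab u).indicator (fun _ => (1 : ℝ≥0∞)) x * g (x + s • u) := by
    intro x
    by_cases hx : x ∈ slab u
    · simp [indicator_of_mem hx]
    · simp [indicator_of_notMem hx]
  simp_rw [h2]
  have hm1 : Measurable fun p : E × ℝ => (slab u).indicator (fun _ => (1 : ℝ≥0∞)) p.1 *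
      g (p.1 + p.2 • u) := by
    apply Measurable.mul
    · exact (measurable_const.indicator (slab_meas u)).comp measurable_fst
    · exact hg.comp (by fun_prop)
  rw [lintegral_lintegral_swap hm1.aemeasurable]
  have h3 : ∀ s : ℝ, ∫⁻ x : E, (slab u).indicator (fun _ => (1 : ℝ≥0∞)) x * g (x + s • u) =
      ∫⁻ x : E, (slab u).indicator (fun _ => (1 : ℝ≥0∞)) (x - s • u) * g x := by
    intro s
    rw [← lintegral_add_right_eq_self (fun x : E =>
      (slab u).indicator (fun _ => (1 : ℝ≥0∞)) (x - s • u) * g x) (s • u)]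
    congr 1
    ext x
    rw [add_sub_cancel_right]
  simp_rw [h3]
  have hm2 : Measurable fun p : ℝ × E => (slab u).indicator (fun _ => (1 : ℝ≥0∞)) (p.2 - p.1 • u) *
      g p.2 := by
    apply Measurable.mul
    · exact (measurable_const.indicator (slab_meas u)).comp (by fun_prop)
    · exact hg.comp measurable_snd
  rw [lintegral_lintegral_swap hm2.aemeasurable]
  congr 1
  ext x
  rw [lintegral_mul_const]
  · rw [slab_time hu, one_mul]
  · exact (measurable_const.indicator (slab_meas u)).comp (by fun_prop)

/-- set version -/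
theorem setLIntegral_line {u : E} (hu : ‖u‖ = 1) (g : E → ℝ≥0∞) (hg : Measurable g) {A : Set E}
    (hA : MeasurableSet A) :
    ∫⁻ x in A, g x = ∫⁻ x in slab u, ∫⁻ s in chord u (foot u x) A, g (foot u x + s • u) := by
  rw [← lintegral_indicator hA, lintegral_line hu _ (hg.indicator hA)]
  congr 1
  ext x
  have hm : MeasurableSet (chord u (foot u x) A) := by
    apply hA.preimage; fun_prop
  rw [← lintegral_indicator hm]
  rfl

/-- one-dimensional comparison -/
lemma one_dim (G : ℝ → ℝ≥0∞) (hG : Measurable G) (m h : ℝ)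
    (hc : ∀ s, 2 * G s ≤ G (s + m) + G (s - m)) :
    2 * ∫⁻ s in Icc (-h) h, G s ≤
      (∫⁻ s in Icc (m - h) (m + h), G s) + ∫⁻ s in Icc (-m - h) (-m + h), G s := by
  have e1 : ∫⁻ s in Icc (m - h) (m + h), G s = ∫⁻ s in Icc (-h) h, G (s + m) := by
    rw [← lintegral_indicator measurableSet_Icc, ← lintegral_indicator measurableSet_Icc,
      ← lintegral_add_right_eq_self _ m]
    congr 1
    ext s
    by_cases hs : s ∈ Icc (-h) h
    · rw [indicator_of_mem hs, indicator_of_mem]
      constructor <;> linarith [hs.1, hs.2]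
    · rw [indicator_of_notMem hs, indicator_of_notMem]
      intro hh; apply hs; constructor <;> linarith [hh.1, hh.2]
  have e2 : ∫⁻ s in Icc (-m - h) (-m + h), G s = ∫⁻ s in Icc (-h) h, G (s - m) := by
    rw [← lintegral_indicator measurableSet_Icc, ← lintegral_indicator measurableSet_Icc,
      ← lintegral_sub_right_eq_self _ m]
    congr 1
    ext s
    by_cases hs : s ∈ Icc (-h) h
    · rw [indicator_of_mem hs, indicator_of_mem]
      constructor <;> linarith [hs.1, hs.2]
    · rw [indicator_of_notMem hs, indicator_of_notMem]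
      intro hh; apply hs; constructor <;> linarith [hh.1, hh.2]
  rw [e1, e2, ← lintegral_add_left (by fun_prop), ← lintegral_const_mul _ hG]
  exact lintegral_mono fun s => hc s

/-- The volume is preserved. -/
theorem sym_volume {u : E} (hu : ‖u‖ = 1) {K : Set E} (hK : IsCompact K) (hc : Convex ℝ K) :
    volume (sym u K) = volume K := by
  have h1 := setLIntegral_line hu (fun _ => (1 : ℝ≥0∞)) measurable_const
    (sym_isCompact hu hK hc).measurableSet
  have h2 := setLIntegral_line hu (fun _ => (1 : ℝ≥0∞)) measurable_const hK.measurableSet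
  rw [setLIntegral_one] at h1 h2
  rw [h1, h2]
  congr 1
  ext x
  rw [setLIntegral_one, setLIntegral_one]
  have hx := foot_inner hu x
  rcases chord_cases hu (foot u x) hK hc with h | ⟨a, b, hab, h⟩
  · rw [h, chord_sym_empty hu hx h]
  · rw [h, chord_sym_Icc hu hx hab h, Real.volume_Icc, Real.volume_Icc]
    congr 1
    ring

/-- The basic inequality: functions that are midpoint convex in direction `u`. -/
theorem sym_ineq {u : E} (hu : ‖u‖ = 1) {K : Set E} (hK : IsCompact K) (hc : Convex ℝ K)
    (g : E → ℝ≥0∞) (hg : Measurable g)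
    (hcv : ∀ y : E, ∀ m : ℝ, 2 * g y ≤ g (y + m • u) + g (y - m • u)) :
    2 * ∫⁻ x in sym u K, g x ≤ (∫⁻ x in K, g x) + ∫⁻ x in K, g (refl u x) := by
  have hmp : MeasurePreserving (refl u) (volume : Measure E) volume :=
    (refl u).measurePreserving
  have h3 : ∫⁻ x in K, g (refl u x) = ∫⁻ x in (refl u ⁻¹' K), g x := by
    have := hmp.setLIntegral_comp_preimage
      (hK.measurableSet.preimage (refl u).continuous.measurable) hg
    rw [← this]
    congr 2
    ext x
    simp [refl_refl]
  have hmr : MeasurableSet (refl u ⁻¹' K) :=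
    hK.measurableSet.preimage (refl u).continuous.measurable
  rw [h3, setLIntegral_line hu g hg (sym_isCompact hu hK hc).measurableSet,
    setLIntegral_line hu g hg hK.measurableSet, setLIntegral_line hu g hg hmr]
  have hfoot : Measurable (fun x : E => foot u x) := by unfold foot; fun_prop
  have hmeas : ∀ A : Set E, MeasurableSet A →
      Measurable fun x : E => ∫⁻ s in chord u (foot u x) A, g (foot u x + s • u) := by
    intro A hA
    have e : (fun x : E => ∫⁻ s in chord u (foot u x) A, g (foot u x + s • u)) =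
        fun x : E => ∫⁻ s : ℝ, A.indicator g (foot u x + s • u) := by
      ext x
      have hm : MeasurableSet (chord u (foot u x) A) := by
        apply hA.preimage; fun_prop
      rw [← lintegral_indicator hm]
      rfl
    rw [e]
    apply Measurable.lintegral_prod_right'
      (f := fun p : E × ℝ => A.indicator g (foot u p.1 + p.2 • u))
    exact (hg.indicator hA).comp (by
      apply Measurable.add
      · exact hfoot.comp measurable_fst
      · fun_prop)
  rw [← lintegral_add_left (hmeas K hK.measurableSet), ← lintegral_const_mul _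
    (hmeas _ (sym_isCompact hu hK hc).measurableSet)]
  apply lintegral_mono
  intro x
  simp only
  have hx := foot_inner hu x
  set z := foot u x with hz
  rcases chord_cases hu z hK hc with h | ⟨a, b, hab, h⟩
  · rw [h, chord_sym_empty hu hx h]
    simp
  · have hr : chord u z (refl u ⁻¹' K) = Icc (-b) (-a) := by
      ext t
      rw [chord_refl hu hx, h, mem_Icc, mem_Icc]
      constructor
      · rintro ⟨h1, h2⟩; constructor <;> linarith
      · rintro ⟨h1, h2⟩; constructor <;> linarith
    rw [h, chord_sym_Icc hu hx hab h, hr]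
    have hG : Measurable fun s : ℝ => g (z + s • u) := hg.comp (by fun_prop)
    have := one_dim (fun s : ℝ => g (z + s • u)) hG ((a + b) / 2) ((b - a) / 2) (by
      intro s
      have := hcv (z + s • u) ((a + b) / 2)
      have e1 : z + s • u + ((a + b) / 2) • u = z + (s + (a + b) / 2) • u := by module
      have e2 : z + s • u - ((a + b) / 2) • u = z + (s - (a + b) / 2) • u := by module
      rw [e1, e2] at this
      exact this)
    have e3 : (a + b) / 2 - (b - a) / 2 = a := by ring
    have e4 : (a + b) / 2 + (b - a) / 2 = b := by ring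
    have e5 : -((a + b) / 2) - (b - a) / 2 = -b := by ring
    have e6 : -((a + b) / 2) + (b - a) / 2 = -a := by ring
    rw [e3, e4, e5, e6] at this
    exact this

end Pool.Agent.H318R3.St
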