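import Pool.Agent.H318R3.St.Haus

set_option autoImplicit false

open MeasureTheory Set Filter Topology Metric
open scoped RealInnerProductSpace ENNReal

namespace Pool.Agent.H318R3.St

variable {E : Type*} [NormedAddCommGroup E] [InnerProductSpace ℝ E] [FiniteDimensional ℝ E]
  [MeasurableSpace E] [BorelSpace E]

/-- The convex function `|x|² - dist(x,L)² + 4R²`. -/
noncomputable def cL (L : Set E) (R : ℝ) (x : E) : ℝ := ‖x‖ ^ 2 - infDist x L ^ 2 + 4 * R ^ 2

omit [FiniteDimensional ℝ E] [MeasurableSpace E] [BorelSpace E] in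
lemma cL_cont (L : Set E) (R : ℝ) : Continuous (cL L R) := by
  unfold cL
  have := continuous_infDist_pt L
  fun_prop

omit [FiniteDimensional ℝ E] [MeasurableSpace E] [BorelSpace E] in
lemma cL_mid {L : Set E} (hL : IsCompact L) (hne : L.Nonempty) (R : ℝ) (y v : E) :
    2 * cL L R y ≤ cL L R (y + v) + cL L R (y - v) := by
  obtain ⟨z, hz, hzd⟩ := hL.exists_infDist_eq_dist hne y
  have h1 : infDist (y + v) L ≤ ‖y + v - z‖ := by
    rw [← dist_eq_norm]; exact infDist_le_dist_of_mem hz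
  have h2 : infDist (y - v) L ≤ ‖y - v - z‖ := by
    rw [← dist_eq_norm]; exact infDist_le_dist_of_mem hz
  have h1' : infDist (y + v) L ^ 2 ≤ ‖y + v - z‖ ^ 2 :=
    pow_le_pow_left₀ infDist_nonneg h1 2
  have h2' : infDist (y - v) L ^ 2 ≤ ‖y - v - z‖ ^ 2 :=
    pow_le_pow_left₀ infDist_nonneg h2 2
  unfold cL
  rw [hzd, dist_eq_norm]
  have e1 : ‖y - z‖ ^ 2 = ‖y‖ ^ 2 - 2 * ⟪y, z⟫ + ‖z‖ ^ 2 := norm_sub_sq_real y z
  have e2 : ‖y + v - z‖ ^ 2 = ‖y + v‖ ^ 2 - 2 * ⟪y + v, z⟫ + ‖z‖ ^ 2 := norm_sub_sq_real _ z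
  have e3 : ‖y - v - z‖ ^ 2 = ‖y - v‖ ^ 2 - 2 * ⟪y - v, z⟫ + ‖z‖ ^ 2 := norm_sub_sq_real _ z
  rw [inner_add_left] at e2
  rw [inner_sub_left] at e3
  linarith

omit [FiniteDimensional ℝ E] [MeasurableSpace E] [BorelSpace E] in
lemma cL_nonneg {L : Set E} (hne : L.Nonempty) {R : ℝ} (hLR : L ⊆ closedBall 0 R)
    {x : E} (hx : x ∈ closedBall (0 : E) R) : 0 ≤ cL L R x := by
  obtain ⟨z, hz⟩ := hne
  have h1 : infDist x L ≤ dist x z := infDist_le_dist_of_mem hz
  have h2 : dist x z ≤ R + R := by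
    have := dist_triangle x 0 z
    have h3 := mem_closedBall.1 hx
    have h4 := mem_closedBall.1 (hLR hz)
    rw [dist_comm 0 z] at this
    linarith
  have h3 : infDist x L ^ 2 ≤ (R + R) ^ 2 :=
    pow_le_pow_left₀ infDist_nonneg (h1.trans h2) 2
  unfold cL
  nlinarith [sq_nonneg ‖x‖]

/-- the functional `∫_K (|x|² + 4R²)` -/
noncomputable def JJ (R : ℝ) (A : Set E) : ℝ≥0∞ := ∫⁻ x in A, ENNReal.ofReal (‖x‖ ^ 2 + 4 * R ^ 2)

/-- the functional `sup_g ∫_K cL(g x)` -/
noncomputable def GG (L : Set E) (R : ℝ) (A : Set E) : ℝ≥0∞ :=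
  ⨆ g : E ≃ₗᵢ[ℝ] E, ∫⁻ x in A, ENNReal.ofReal (cL L R (g x))

lemma ofReal_mid {a b c : ℝ} (h : 2 * a ≤ b + c) :
    2 * ENNReal.ofReal a ≤ ENNReal.ofReal b + ENNReal.ofReal c := by
  have e : (2 : ℝ≥0∞) = ENNReal.ofReal 2 := by simp
  rw [e, ← ENNReal.ofReal_mul (by norm_num)]
  exact (ENNReal.ofReal_le_ofReal h).trans ENNReal.ofReal_add_le

lemma two_cancel {a b : ℝ≥0∞} (h : 2 * a ≤ b + b) : a ≤ b := by
  rw [← two_mul] at h
  exact (ENNReal.mul_le_mul_iff_right (by norm_num) (by norm_num)).1 h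

theorem GG_sym {L : Set E} (hL : IsCompact L) (hne : L.Nonempty) (R : ℝ) {u : E} (hu : ‖u‖ = 1)
    {K : Set E} (hK : IsCompact K) (hc : Convex ℝ K) : GG L R (sym u K) ≤ GG L R K := by
  apply iSup_le
  intro g
  have hg : Measurable fun x : E => ENNReal.ofReal (cL L R (g x)) :=
    ENNReal.measurable_ofReal.comp
      ((cL_cont L R).comp g.continuous).measurable
  have h1 := sym_ineq hu hK hc (fun x => ENNReal.ofReal (cL L R (g x))) hg (by
    intro y m
    apply ofReal_mid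
    rw [map_add, map_sub]
    exact cL_mid hL hne R _ _)
  have h2 : ∫⁻ x in K, ENNReal.ofReal (cL L R (g x)) ≤ GG L R K :=
    le_iSup (fun g : E ≃ₗᵢ[ℝ] E => ∫⁻ x in K, ENNReal.ofReal (cL L R (g x))) g
  have h3 : ∫⁻ x in K, ENNReal.ofReal (cL L R (g (refl u x))) ≤ GG L R K :=
    le_iSup (fun g : E ≃ₗᵢ[ℝ] E => ∫⁻ x in K, ENNReal.ofReal (cL L R (g x))) ((refl u).trans g)
  exact two_cancel (h1.trans (add_le_add h2 h3))

theorem JJ_sym (R : ℝ) {u : E} (hu : ‖u‖ = 1)
    {K : Set E} (hK : IsCompact K) (hc : Convex ℝ K) : JJ R (sym u K) ≤ JJ R K := by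
  have hg : Measurable fun x : E => ENNReal.ofReal (‖x‖ ^ 2 + 4 * R ^ 2) := by fun_prop
  have h1 := sym_ineq hu hK hc _ hg (by
    intro y m
    apply ofReal_mid
    have h1 := norm_add_sq_real y (m • u)
    have h2 := norm_sub_sq_real y (m • u)
    nlinarith [sq_nonneg ‖m • u‖])
  simp only [(refl u).norm_map] at h1
  exact two_cancel h1

/-- **Convergence in shape of iterated Steiner symmetrals.** -/
theorem shape (K : ℕ → Set E) (u : ℕ → E) (hu : ∀ i, ‖u i‖ = 1) (hK0 : IsCompact (K 0))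
    (hc0 : Convex ℝ (K 0)) (hint : (interior (K 0)).Nonempty)
    (hstep : ∀ i, K (i + 1) = sym (u i) (K i)) :
    ∃ (ψ : ℕ → E ≃ₗᵢ[ℝ] E) (L : Set E), IsCompact L ∧ L.Nonempty ∧ Convex ℝ L ∧
      Tendsto (fun i => hausdorffDist (ψ i '' K i) L) atTop (𝓝 0) := by
  obtain ⟨R, hRpos, hR0⟩ : ∃ R : ℝ, 0 < R ∧ K 0 ⊆ closedBall 0 R := by
    obtain ⟨R, hR⟩ := hK0.isBounded.subset_closedBall 0
    exact ⟨max R 1, by positivity, hR.trans (closedBall_subset_closedBall (le_max_left _ _))⟩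
  have hall : ∀ i, IsCompact (K i) ∧ Convex ℝ (K i) ∧ (K i).Nonempty ∧ K i ⊆ closedBall 0 R ∧
      volume (K i) = volume (K 0) := by
    intro i
    induction i with
    | zero => exact ⟨hK0, hc0, hint.mono interior_subset, hR0, rfl⟩
    | succ i ih =>
      obtain ⟨h1, h2, h3, h4, h5⟩ := ih
      rw [hstep i]
      exact ⟨sym_isCompact (hu i) h1 h2, sym_convex (hu i) h1 h2, sym_nonempty (hu i) h1 h2 h3,
        sym_subset_ball (hu i) h1 h2 h4, (sym_volume (hu i) h1 h2).trans h5⟩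
  have hKc := fun i => (hall i).1
  have hKv := fun i => (hall i).2.1
  have hKn := fun i => (hall i).2.2.1
  have hKR := fun i => (hall i).2.2.2.1
  have hKvol := fun i => (hall i).2.2.2.2
  have hV0 : volume (K 0) ≠ 0 :=
    ((isOpen_interior.measure_pos volume hint).trans_le (measure_mono interior_subset)).ne'
  have hVtop : volume (K 0) ≠ ⊤ := hK0.measure_lt_top.ne
  obtain ⟨L, hL, hLn, hLc, hLR, φ, hφ, hlim⟩ := blaschke K R hKc hKn hKv hKR
  have hvolL : volume L = volume (K 0) := by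
    have h1 := tendsto_lint (fun k => hKn (φ k)) hLn (fun k => hKc (φ k)) hL
      (fun k => hKv (φ k)) hLc hlim (fun k => hKR (φ k)) (fun _ => 1) measurable_const
      (C := 1) ENNReal.one_ne_top (fun _ _ => le_rfl)
    simp only [setLIntegral_one, hKvol] at h1
    exact (tendsto_nhds_unique h1 tendsto_const_nhds)
  have hbdJ : ∀ x ∈ closedBall (0 : E) R, ENNReal.ofReal (‖x‖ ^ 2 + 4 * R ^ 2) ≤
      ENNReal.ofReal (R ^ 2 + 4 * R ^ 2) := by
    intro x hx
    apply ENNReal.ofReal_le_ofReal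
    have h1 := mem_closedBall_zero_iff.1 hx
    have h2 := norm_nonneg x
    nlinarith
  have hJlim : Tendsto (fun k => JJ R (K (φ k))) atTop (𝓝 (JJ R L)) :=
    tendsto_lint (fun k => hKn (φ k)) hLn (fun k => hKc (φ k)) hL
      (fun k => hKv (φ k)) hLc hlim (fun k => hKR (φ k)) _ (by fun_prop)
      (C := ENNReal.ofReal (R ^ 2 + 4 * R ^ 2)) ENNReal.ofReal_ne_top hbdJ
  have hJanti : Antitone fun i => JJ R (K i) := by
    apply antitone_nat_of_succ_le
    intro i
    rw [hstep i]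
    exact JJ_sym R (hu i) (hKc i) (hKv i)
  have hJ : Tendsto (fun i => JJ R (K i)) atTop (𝓝 (JJ R L)) := by
    have h1 := tendsto_atTop_iInf hJanti
    have h2 := h1.comp hφ.tendsto_atTop
    rw [tendsto_nhds_unique hJlim h2]
    exact h1
  have hJLtop : JJ R L ≠ ⊤ := by
    have h1 : JJ R L ≤ ∫⁻ x in L, ENNReal.ofReal (R ^ 2 + 4 * R ^ 2) :=
      setLIntegral_mono measurable_const fun x hx => hbdJ x (hLR hx)
    rw [setLIntegral_const] at h1
    exact (h1.trans_lt (ENNReal.mul_lt_top ENNReal.ofReal_lt_top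
      (by rw [hvolL]; exact hVtop.lt_top))).ne
  have hJL0 : JJ R L ≠ 0 := by
    have h1 : ∫⁻ x in L, ENNReal.ofReal (4 * R ^ 2) ≤ JJ R L := by
      apply lintegral_mono
      intro x
      apply ENNReal.ofReal_le_ofReal
      nlinarith [sq_nonneg ‖x‖]
    rw [setLIntegral_const] at h1
    intro h0
    rw [h0] at h1
    have h2 : ENNReal.ofReal (4 * R ^ 2) * volume L = 0 := le_antisymm h1 zero_le
    rw [mul_eq_zero] at h2
    rcases h2 with h2 | h2
    · rw [ENNReal.ofReal_eq_zero] at h2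
      nlinarith
    · rw [hvolL] at h2; exact hV0 h2
  have hGanti : Antitone fun i => GG L R (K i) := by
    apply antitone_nat_of_succ_le
    intro i
    rw [hstep i]
    exact GG_sym hL hLn R (hu i) (hKc i) (hKv i)
  -- lower bound for GG
  have hcLle : ∀ x, cL L R x ≤ ‖x‖ ^ 2 + 4 * R ^ 2 := by
    intro x
    unfold cL
    nlinarith [sq_nonneg (infDist x L)]
  have hcLmeas : Measurable fun x : E => ENNReal.ofReal (cL L R x) :=
    ENNReal.measurable_ofReal.comp (cL_cont L R).measurable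
  have hLint : ∫⁻ x in L, ENNReal.ofReal (cL L R x) = JJ R L := by
    apply setLIntegral_congr_fun hL.measurableSet
    intro x hx
    show ENNReal.ofReal (cL L R x) = ENNReal.ofReal (‖x‖ ^ 2 + 4 * R ^ 2)
    unfold cL
    rw [infDist_zero_of_mem hx]
    norm_num
  have hGlow : ∀ i, JJ R L ≤ GG L R (K i) := by
    intro i
    have h1 : Tendsto (fun k => ∫⁻ x in K (φ k), ENNReal.ofReal (cL L R x)) atTop
        (𝓝 (JJ R L)) := by
      rw [← hLint]
      exact tendsto_lint (fun k => hKn (φ k)) hLn (fun k => hKc (φ k)) hL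
        (fun k => hKv (φ k)) hLc hlim (fun k => hKR (φ k)) _ hcLmeas
        (C := ENNReal.ofReal (R ^ 2 + 4 * R ^ 2)) ENNReal.ofReal_ne_top
        (fun x hx => (ENNReal.ofReal_le_ofReal (hcLle x)).trans (hbdJ x hx))
    apply le_of_tendsto h1
    filter_upwards [eventually_ge_atTop i] with k hk
    have h2 : i ≤ φ k := hk.trans (hφ.id_le k)
    refine le_trans ?_ (hGanti h2)
    exact le_iSup (fun g : E ≃ₗᵢ[ℝ] E => ∫⁻ x in K (φ k), ENNReal.ofReal (cL L R (g x)))
      (LinearIsometryEquiv.refl ℝ E)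
  -- choice of the isometries
  have hchoose : ∀ i : ℕ, ∃ g : E ≃ₗᵢ[ℝ] E, JJ R L - ENNReal.ofReal (1 / ((i : ℝ) + 1)) ≤
      ∫⁻ x in K i, ENNReal.ofReal (cL L R (g x)) := by
    intro i
    have hpos : (0 : ℝ) < 1 / ((i : ℝ) + 1) := by positivity
    have h1 : JJ R L - ENNReal.ofReal (1 / ((i : ℝ) + 1)) < GG L R (K i) :=
      (ENNReal.sub_lt_self hJLtop hJL0 (by
        rw [Ne, ENNReal.ofReal_eq_zero]; linarith)).trans_le (hGlow i)
    obtain ⟨g, hg⟩ := lt_iSup_iff.1 h1
    exact ⟨g, hg.le⟩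
  choose ψ hψ using hchoose
  -- the defects
  set D : ℕ → ℝ≥0∞ := fun i => ∫⁻ x in K i, ENNReal.ofReal (infDist (ψ i x) L ^ 2) with hD
  have hDsum : ∀ i, (∫⁻ x in K i, ENNReal.ofReal (cL L R (ψ i x))) + D i = JJ R (K i) := by
    intro i
    rw [hD]
    simp only
    have hm1 : Measurable fun x => ENNReal.ofReal (cL L R (ψ i x)) :=
      hcLmeas.comp (ψ i).continuous.measurable
    rw [← lintegral_add_left hm1]
    apply setLIntegral_congr_fun (hKc i).measurableSet
    intro x hx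
    have hxR : ψ i x ∈ closedBall (0 : E) R := by
      rw [mem_closedBall_zero_iff, (ψ i).norm_map]
      exact mem_closedBall_zero_iff.1 (hKR i hx)
    show ENNReal.ofReal (cL L R (ψ i x)) + ENNReal.ofReal (infDist (ψ i x) L ^ 2) =
      ENNReal.ofReal (‖x‖ ^ 2 + 4 * R ^ 2)
    rw [← ENNReal.ofReal_add (cL_nonneg hLn hLR hxR) (sq_nonneg _)]
    congr 1
    unfold cL
    rw [(ψ i).norm_map]
    ring
  have hDle : ∀ i, D i ≤ JJ R (K i) + ENNReal.ofReal (1 / ((i : ℝ) + 1)) - JJ R L := by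
    intro i
    apply ENNReal.le_sub_of_add_le_right hJLtop
    have h1 : JJ R L ≤ (∫⁻ x in K i, ENNReal.ofReal (cL L R (ψ i x))) +
        ENNReal.ofReal (1 / ((i : ℝ) + 1)) := tsub_le_iff_right.1 (hψ i)
    calc D i + JJ R L ≤ D i + ((∫⁻ x in K i, ENNReal.ofReal (cL L R (ψ i x))) +
        ENNReal.ofReal (1 / ((i : ℝ) + 1))) := by gcongr
      _ = ((∫⁻ x in K i, ENNReal.ofReal (cL L R (ψ i x))) + D i) +
        ENNReal.ofReal (1 / ((i : ℝ) + 1)) := by ring
      _ = _ := by rw [hDsum i]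
  have hDlim : Tendsto D atTop (𝓝 0) := by
    have h0 : Tendsto (fun i : ℕ => ENNReal.ofReal (1 / ((i : ℝ) + 1))) atTop (𝓝 0) := by
      rw [← ENNReal.ofReal_zero]
      exact (ENNReal.continuous_ofReal.tendsto 0).comp tendsto_one_div_add_atTop_nhds_zero_nat
    have h1 := ENNReal.Tendsto.sub (hJ.add h0) (tendsto_const_nhds (x := JJ R L))
      (Or.inr hJLtop)
    rw [add_zero, tsub_self] at h1
    exact tendsto_of_tendsto_of_tendsto_of_le_of_le tendsto_const_nhds h1
      (fun _ => zero_le) hDle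
  -- the rotated bodies
  set M : ℕ → Set E := fun i => ψ i '' K i with hM
  have hMc : ∀ i, IsCompact (M i) := fun i => (hKc i).image (ψ i).continuous
  have hMn : ∀ i, (M i).Nonempty := fun i => (hKn i).image _
  have hMv : ∀ i, Convex ℝ (M i) := fun i =>
    (hKv i).linear_image (ψ i).toLinearEquiv.toLinearMap
  have hMR : ∀ i, M i ⊆ closedBall 0 R := by
    rintro i _ ⟨x, hx, rfl⟩
    rw [mem_closedBall_zero_iff, (ψ i).norm_map]
    exact mem_closedBall_zero_iff.1 (hKR i hx)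
  have hMint : ∀ i, ∀ g : E → ℝ≥0∞, Measurable g → ∫⁻ x in M i, g x =
      ∫⁻ x in K i, g (ψ i x) := by
    intro i g hg
    have hmp : MeasurePreserving (ψ i) (volume : Measure E) volume := (ψ i).measurePreserving
    have := hmp.setLIntegral_comp_preimage (hMc i).measurableSet hg
    rw [← this]
    congr 2
    rw [hM]
    exact (preimage_image_eq _ (ψ i).injective).symm ▸ rfl
  have hMvol : ∀ i, volume (M i) = volume (K 0) := by
    intro i
    have := hMint i (fun _ => 1) measurable_const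
    rw [setLIntegral_one, setLIntegral_one] at this
    rw [this, hKvol]
  have hdm : Measurable fun x : E => ENNReal.ofReal (infDist x L ^ 2) := by
    have := (continuous_infDist_pt L).measurable
    fun_prop
  refine ⟨ψ, L, hL, hLn, hLc, ?_⟩
  apply tendsto_of_subseq_tendsto
  intro ns hns
  obtain ⟨L', hL', hLn', hLc', hLR', φ', hφ', hlim'⟩ := blaschke (fun k => M (ns k)) R
    (fun k => hMc _) (fun k => hMn _) (fun k => hMv _) (fun k => hMR _)
  refine ⟨φ', ?_⟩
  have hvolL' : volume L' = volume (K 0) := by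
    have h1 := tendsto_lint (fun k => hMn (ns (φ' k))) hLn' (fun k => hMc _) hL'
      (fun k => hMv _) hLc' hlim' (fun k => hMR _) (fun _ => 1) measurable_const
      (C := 1) ENNReal.one_ne_top (fun _ _ => le_rfl)
    simp only [setLIntegral_one, hMvol] at h1
    exact (tendsto_nhds_unique h1 tendsto_const_nhds)
  have hzero : ∫⁻ x in L', ENNReal.ofReal (infDist x L ^ 2) = 0 := by
    have h1 := tendsto_lint (fun k => hMn (ns (φ' k))) hLn' (fun k => hMc _) hL'
      (fun k => hMv _) hLc' hlim' (fun k => hMR _) _ hdm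
      (C := ENNReal.ofReal (R ^ 2 + 4 * R ^ 2)) ENNReal.ofReal_ne_top
      (by
        intro x hx
        refine le_trans (ENNReal.ofReal_le_ofReal ?_) (hbdJ x hx)
        have := cL_nonneg hLn hLR hx
        unfold cL at this
        linarith)
    have h2 : Tendsto (fun k => D (ns (φ' k))) atTop (𝓝 0) :=
      hDlim.comp (hns.comp hφ'.tendsto_atTop)
    have h3 : (fun k => ∫⁻ x in M (ns (φ' k)), ENNReal.ofReal (infDist x L ^ 2)) =
        fun k => D (ns (φ' k)) := by
      ext k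
      rw [hMint _ _ hdm]
    rw [h3] at h1
    exact tendsto_nhds_unique h1 h2
  have hnull : volume (L' \ L) = 0 := by
    rw [lintegral_eq_zero_iff hdm] at hzero
    have h1 := (ae_restrict_iff' hL'.measurableSet).1 hzero
    rw [ae_iff] at h1
    refine measure_mono_null ?_ h1
    rintro x ⟨hx, hxL⟩
    simp only [mem_ofPred_eq, Classical.not_imp]
    refine ⟨hx, ?_⟩
    have hpos : 0 < infDist x L := (hL.isClosed.notMem_iff_infDist_pos hLn).1 hxL
    simp only [Pi.zero_apply, ENNReal.ofReal_eq_zero, not_le]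
    positivity
  have hsub : L' ⊆ L := subset_of_ae hLc' hL'.isClosed hL.isClosed (by rw [hvolL']; exact hV0) hnull
  have hsub2 : L ⊆ L' := by
    apply subset_of_ae hLc hL.isClosed hL'.isClosed (by rw [hvolL]; exact hV0)
    rw [measure_sdiff hsub hL'.measurableSet.nullMeasurableSet (by rw [hvolL']; exact hVtop),
      hvolL, hvolL', tsub_self]
  rw [hsub.antisymm hsub2] at hlim'
  exact hlim'

end Pool.Agent.H318R3.St
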